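import Pool.Agent.U722.FF.Stm2
import Pool.Agent.U97.FFP.FP2

set_option autoImplicit false

/-! # Project FS, package FPFG: groups of type FP are finitely generated -/

namespace Pool.Agent.U908.FSP

open U722.FF MulAction

theorem t_FPFG : S_FPFG := by
  intro G _ hG
  obtain ⟨n, P, d, ε, hproj, hfin, -, hequiv, hsurj, hker, -⟩ := hG
  have := hproj 0
  have := hfin 0
  have := hfin 1
  -- the augmentation as a linear map to the permutation module of a point
  set π : (P 0) →ₗ[MonoidAlgebra ℤ G] PM G PUnit.{1} :=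
    mkLin ((zmultiplesHom (PM G PUnit.{1}) (pt G PUnit.unit)).comp ε) (by
      intro g m
      change ε (MonoidAlgebra.of ℤ G g • m) • pt G PUnit.unit =
        MonoidAlgebra.of ℤ G g • (ε m • pt G PUnit.unit)
      rw [hequiv, smul_comm, of_smul_pt]) with hπ
  have hπv : ∀ x, π x = ε x • pt G PUnit.unit := fun x => rfl
  have hz : ∀ z : ℤ, z • pt G PUnit.unit = (Finsupp.single PUnit.unit z : PUnit.{1} →₀ ℤ) := by
    intro z
    change z • (Finsupp.single PUnit.unit 1 : PUnit.{1} →₀ ℤ) = _
    simp
  have hs : Function.Surjective π := by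
    intro m
    obtain ⟨x, hx⟩ := hsurj ((show PUnit.{1} →₀ ℤ from m) PUnit.unit)
    refine ⟨x, ?_⟩
    rw [hπv, hz, hx]
    change (Finsupp.single PUnit.unit _ : PUnit.{1} →₀ ℤ) = (show PUnit.{1} →₀ ℤ from m)
    ext
    simp
  have hk : LinearMap.ker π = LinearMap.range (d 0) := by
    ext x
    rw [LinearMap.mem_ker, ← hker x, hπv, hz]
    constructor
    · intro h
      have h1 : (Finsupp.single PUnit.unit (ε x) : PUnit.{1} →₀ ℤ) = 0 := h
      simpa using h1
    · intro h
      rw [h]
      exact Finsupp.single_zero _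
  have hkf : (LinearMap.ker π).FG := by
    rw [hk, LinearMap.range_eq_map]
    exact Submodule.FG.map _ Module.Finite.fg_top
  have hfp : Module.FinitePresentation (MonoidAlgebra ℤ G) (P 0) :=
    Module.finitePresentation_of_projective _ _
  have hfp2 : Module.FinitePresentation (MonoidAlgebra ℤ G) (PM G PUnit.{1}) :=
    Module.finitePresentation_of_surjective π hs hkf
  have h1 : Group.FG ↥(stabilizer G (PUnit.unit : PUnit.{1})) :=
    Pool.Agent.U97.FFP.t_FP2 G PUnit.{1} PUnit.unit (fun y => ⟨1, rfl⟩) hfp2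
  have h2 : stabilizer G (PUnit.unit : PUnit.{1}) = ⊤ := by
    ext g
    simp
  rw [h2] at h1
  exact Group.fg_of_surjective (f := (Subgroup.topEquiv : (⊤ : Subgroup G) ≃* G).toMonoidHom)
    Subgroup.topEquiv.surjective

end Pool.Agent.U908.FSP
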